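import Mathlib

/-! Compatible systems of Galois representations over a finitely generated ring, and their
specialisations at points with values in local fields. -/

set_option autoImplicit false

namespace Pool.Agent.P.MP_898f40_nt.U

open Polynomial

/-- The absolute Galois group. -/
abbrev Gam (K : Type) [Field K] := AlgebraicClosure K ≃ₐ[K] AlgebraicClosure K

/-- The integral closure of `R` in the algebraic closure of `K`. -/
noncomputable abbrev Rt (R K : Type) [CommRing R] [Field K] [Algebra R K] :=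
  integralClosure R (AlgebraicClosure K)

/-- A family of `l`-adic matrix representations, one for each prime `l`. -/
abbrev Reps (G n : Type) [Group G] [Fintype n] [DecidableEq n] :=
  ∀ (l : ℕ) [Fact l.Prime], G →* GL n ℤ_[l]

/-- A compatible system over `R`, unramified away from `l` and pure of weight `w`. -/
structure System (R : Type) {K n : Type} [CommRing R] [Field K] [Algebra R K] [Fintype n]
    [DecidableEq n] (w : ℕ) (ρ : Reps (Gam K) n) : Prop where
  cont : ∀ (l : ℕ) [Fact l.Prime], Continuous (ρ l)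
  unr : ∀ (l : ℕ) [Fact l.Prime] (P : Ideal (Rt R K)), P.IsPrime → (l : Rt R K) ∉ P →
    ∀ σ ∈ P.inertia (Gam K), ρ l σ = 1
  frob : ∀ (P : Ideal (Rt R K)) (q : ℕ) (σ : Gam K), P.IsMaximal → 1 < q →
    (∀ b, σ • b - b ^ q ∈ P) → ∃ F : ℤ[X], (∀ z : ℂ, aeval z F = 0 → ‖z‖ ^ 2 = (q : ℝ) ^ w) ∧
      ∀ (l : ℕ) [Fact l.Prime], (l : Rt R K) ∉ P →
        (ρ l σ⁻¹).val.charpoly = F.map (Int.castRingHom ℤ_[l])

/-- `r` is the specialisation of `ρ` at the geometric point `x`. -/
def Spec {R K E n : Type} [CommRing R] [Field K] [Algebra R K] [Field E] [Fintype n]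
    [DecidableEq n] (x : Rt R K →+* AlgebraicClosure E) (ρ : Reps (Gam K) n)
    (r : Reps (Gam E) n) : Prop :=
  ∀ g : Gam E, (∃ σ : Gam K, ∀ b, x (σ • b) = g (x b)) ∧
    ∀ σ : Gam K, (∀ b, x (σ • b) = g (x b)) → ∀ (l : ℕ) [Fact l.Prime], r l g = ρ l σ

section

variable {G n : Type} [Group G] [Fintype n] [DecidableEq n] {l : ℕ} [Fact l.Prime]

/-- The action on `ℚ_l ^ n`. -/
noncomputable def act (r : G →* GL n ℤ_[l]) (g : G) : Module.End ℚ_[l] (n → ℚ_[l]) :=
  Matrix.toLin' ((r g).val.map (algebraMap ℤ_[l] ℚ_[l]))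

/-- The vectors fixed by `I`. -/
noncomputable def fixed (r : G →* GL n ℤ_[l]) (I : Subgroup G) : Submodule ℚ_[l] (n → ℚ_[l]) :=
  ⨅ g ∈ I, LinearMap.ker (act r g - 1)

/-- `P` is the polynomial `det (1 - T F)` on the vectors fixed by `I`. -/
def Euler (r : G →* GL n ℤ_[l]) (I : Subgroup G) (F : G) (P : ℤ[X]) : Prop :=
  ∃ h : ∀ v ∈ fixed r I, act r F v ∈ fixed r I,
    ((act r F).restrict h).charpoly.reverse = P.map (Int.castRingHom ℚ_[l])

end

/-- A property of local representations holds uniformly for the specialisations of `ρ` at all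
points of a dense open set with values in local fields of residue characteristic prime to `M`. -/
def Uniform (R : Type) {K n : Type} [CommRing R] [Field K] [Algebra R K] [Fintype n]
    [DecidableEq n] (ρ : Reps (Gam K) n)
    (C : ∀ (O E : Type) [CommRing O] [Field E] [Algebra O E],
      Ideal (Rt O E) → Reps (Gam E) n → Prop) : Prop :=
  ∃ (f : R) (M : ℕ), f ≠ 0 ∧ M ≠ 0 ∧ ∀ (O E : Type) [CommRing O] [IsDomain O]
    [IsDiscreteValuationRing O] [IsAdicComplete (IsLocalRing.maximalIdeal O) O]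
    [Finite (IsLocalRing.ResidueField O)] [Field E] [CharZero E] [Algebra O E] [IsFractionRing O E]
    (N : Ideal (Rt O E)) (x : Rt R K →+* AlgebraicClosure E), N.IsMaximal → (M : Rt O E) ∉ N →
    (∀ a : R, x (algebraMap R _ a) ∈ (algebraMap E (AlgebraicClosure E)).range) →
    x (algebraMap R _ f) ≠ 0 → ∃ r, Spec x ρ r ∧ C O E N r

/-- The local Euler factors are integral and independent of `l`. -/
def Indep {n : Type} [Fintype n] [DecidableEq n] (O E : Type) [CommRing O] [Field E] [Algebra O E]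
    (N : Ideal (Rt O E)) (r : Reps (Gam E) n) : Prop :=
  (∃ F : Gam E, IsArithFrobAt O F N) ∧ ∃ P : ℤ[X], ∀ F : Gam E, IsArithFrobAt O F N →
    ∀ (l : ℕ) [Fact l.Prime], (l : Rt O E) ∉ N → Euler (r l) (N.inertia (Gam E)) F⁻¹ P

end Pool.Agent.P.MP_898f40_nt.U
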