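import Pool.Agent.P.MP_898f40_nt.Lp.Defs

/-! Properties that hold at all points with values in local fields of large residue
characteristic. -/

set_option autoImplicit false

namespace Pool.Agent.P.MP_898f40_nt.U

/-- A property of local representations holds for the specialisations of `ρ` at all points with
values in local fields of residue characteristic prime to one integer `M`. -/
def Large (R : Type) {K n : Type} [CommRing R] [Field K] [Algebra R K] [Fintype n]
    [DecidableEq n] (ρ : Reps (Gam K) n)
    (C : ∀ (O E : Type) [CommRing O] [Field E] [Algebra O E],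
      Ideal (Rt O E) → Reps (Gam E) n → Prop) : Prop :=
  ∃ M : ℕ, M ≠ 0 ∧ ∀ (O E : Type) [CommRing O] [IsDomain O]
    [IsDiscreteValuationRing O] [IsAdicComplete (IsLocalRing.maximalIdeal O) O]
    [Finite (IsLocalRing.ResidueField O)] [Field E] [CharZero E] [Algebra O E] [IsFractionRing O E]
    (N : Ideal (Rt O E)) (x : Rt R K →+* AlgebraicClosure E), N.IsMaximal → (M : Rt O E) ∉ N →
    (∀ a : R, x (algebraMap R _ a) ∈ (algebraMap E (AlgebraicClosure E)).range) →
    ∃ r, Spec x ρ r ∧ C O E N r

end Pool.Agent.P.MP_898f40_nt.U
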