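import Pool.Agent.P.MP_898f40_nt.Lp.Defs
import Pool.Agent.P.MP_cd312e_ag.Tr.MWDefs

/-! The monodromy-weight assertion for a representation of a local Galois group. -/

set_option autoImplicit false

namespace Pool.Agent.P.MP_898f40_nt.U

open Pool.Agent.P.MP_cd312e_ag.Tr Pool.Agent.P.MP_898f40_nt.Bet

variable {n : Type} [Fintype n] [DecidableEq n] (O E : Type) [CommRing O] [Field E] [Algebra O E]
  (N : Ideal (Rt O E))

/-- `t` is the `l`-adic tame character of the inertia group, for some uniformizer `π`, compatible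
roots `y j` of `π` and compatible primitive roots of unity `ζ j`. -/
def Tame (l : ℕ) [Fact l.Prime] (t : Gam E → ℤ_[l]) : Prop :=
  ∃ (π : O) (y ζ : ℕ → AlgebraicClosure E), Irreducible π ∧ y 0 = algebraMap O _ π ∧
    (∀ j, y (j + 1) ^ l = y j) ∧ (∀ j, IsPrimitiveRoot (ζ j) (l ^ j)) ∧
    (∀ j, ζ (j + 1) ^ l = ζ j) ∧
    ∀ g ∈ N.inertia (Gam E), ∀ j, g (y j) = ζ j ^ (PadicInt.toZModPow j (t g)).val * y j

/-- `g` acts on the residue field as the `v`-th power of the geometric Frobenius. -/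
def WDeg (g : Gam E) (v : ℤ) : Prop :=
  ∃ a c : ℕ, v = a - c ∧ ∀ b : Rt O E,
    (g • b) ^ Nat.card (O ⧸ N.under O) ^ a - b ^ Nat.card (O ⧸ N.under O) ^ c ∈ N

/-- `L` is the logarithm of the monodromy. -/
def Mono {l : ℕ} [Fact l.Prime] (r : Gam E →* GL n ℤ_[l]) (t : Gam E → ℤ_[l])
    (L : Module.End ℚ_[l] (n → ℚ_[l])) : Prop :=
  IsNilpotent L ∧ ∃ E' : IntermediateField E (AlgebraicClosure E), FiniteDimensional E E' ∧
    ∀ g ∈ N.inertia (Gam E), g ∈ E'.fixingSubgroup →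
      act r g = IsNilpotent.exp ((t g : ℚ_[l]) • L)

/-- The monodromy-weight assertion in weight `w`. -/
def MonoWt (w : ℕ) (O E : Type) [CommRing O] [Field E] [Algebra O E] (N : Ideal (Rt O E))
    (r : Reps (Gam E) n) : Prop :=
  ∀ (l : ℕ) [Fact l.Prime], (l : Rt O E) ∉ N → ∀ t, Tame O E N l t →
    (∃ L, Mono O E N (r l) t L) ∧ ∀ L, Mono O E N (r l) t L → ∃ Fil, IsMonFil L Fil ∧
      ∀ g v, WDeg O E N g v → ∃ h : ∀ s, ∀ x ∈ Fil s, act (r l) g x ∈ Fil s,
        ∀ s, Pure (Nat.card (O ⧸ N.under O)) ((w + s) * v) (sq (act (r l) g) (h s) (h (s - 1)))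

end Pool.Agent.P.MP_898f40_nt.U
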