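import Mathlib

/-! Block V: the one variable step of the arc lemma (induction on the derivatives). -/

set_option linter.unusedSectionVars false

namespace Pool.Agent.P.MP_898f40_nt.U

open Polynomial IsLocalRing

section Coh

variable {A C E : Type} [CommRing A] [CommRing C] [Algebra A C] [CommRing E]

theorem coh_taylor {n : ℕ} (hn : IsUnit ((n.factorial : ℕ) : A)) (Q : C[X])
    (hQ : Q.natDegree ≤ n) (α η z : C)
    (h : ∀ m, ∃ b : A, η ^ (m + 2) * (derivative^[m + 2] Q).eval α = algebraMap A C b * z) :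
    ∃ T : A[X], ∀ s : A, Q.eval (α + η * algebraMap A C s) =
      Q.eval α + η * Q.derivative.eval α * algebraMap A C s +
        z * algebraMap A C (s ^ 2 * T.eval s) := by
  have h2 : ∀ m, ∃ b : A, m + 2 ≤ n →
      η ^ (m + 2) * (hasseDeriv (m + 2) Q).eval α = algebraMap A C b * z := by
    intro m
    by_cases hm : m + 2 ≤ n
    · obtain ⟨b, hb⟩ := h m
      have hu : IsUnit (((m + 2).factorial : ℕ) : A) :=
        isUnit_of_dvd_unit (Nat.cast_dvd_cast (Nat.factorial_dvd_factorial hm)) hn
      obtain ⟨r, hr⟩ := hu.exists_left_inv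
      refine ⟨r * b, fun _ => ?_⟩
      have e : (derivative^[m + 2] Q) = (m + 2).factorial • hasseDeriv (m + 2) Q := by
        rw [← factorial_smul_hasseDeriv]; rfl
      rw [e, eval_smul, nsmul_eq_mul] at hb
      have hr' : algebraMap A C r * (((m + 2).factorial : ℕ) : C) = 1 := by
        rw [← map_natCast (algebraMap A C), ← map_mul, hr, map_one]
      rw [map_mul, mul_assoc, ← hb]
      linear_combination (-(η ^ (m + 2) * (hasseDeriv (m + 2) Q).eval α)) * hr'
    · exact ⟨0, fun h => absurd h hm⟩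
  choose b hb using h2
  refine ⟨∑ m ∈ Finset.range n, monomial m (if m + 2 ≤ n then b m else 0), fun s => ?_⟩
  rw [add_comm α, ← taylor_eval, eval_eq_sum_range' (n := n + 2)
    (by rw [natDegree_taylor]; omega), Finset.sum_range_succ', Finset.sum_range_succ',
    taylor_coeff_zero, zero_add, taylor_coeff_one, eval_finsetSum, Finset.mul_sum, map_sum,
    Finset.mul_sum]
  have : ∀ m ∈ Finset.range n, (taylor α Q).coeff (m + 1 + 1) * (η * algebraMap A C s) ^ (m + 1 + 1)
      = z * algebraMap A C (s ^ 2 * (monomial m (if m + 2 ≤ n then b m else 0)).eval s) := by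
    intro m _
    rw [taylor_coeff, eval_monomial]
    split_ifs with hm
    · simp only [map_mul, map_pow]
      linear_combination (algebraMap A C s) ^ (m + 2) * hb m hm
    · rw [hasseDeriv_eq_zero_of_lt_natDegree _ _ (by omega)]; simp
  rw [Finset.sum_congr rfl this]
  ring

/-- the chain condition from level `j` on -/
def CohCh (A : Type) {C : Type} [CommRing A] [CommRing C] [Algebra A C] (P : C[X]) (n j : ℕ)
    (α η : C) : Prop :=
  (∀ i, j ≤ i → i ≤ n → IsUnit ((derivative^[i] P).eval α)) ∧
    ∀ i, j ≤ i → ∃ b : A, η * (derivative^[i + 1] P).eval α =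
      algebraMap A C b * (derivative^[i] P).eval α

theorem CohCh.pow {P : C[X]} {n j : ℕ} {α η : C} (h : CohCh A P n j α η) (i : ℕ) (hi : j ≤ i)
    (m : ℕ) : ∃ b : A, η ^ m * (derivative^[m] (derivative^[i] P)).eval α =
      algebraMap A C b * (derivative^[i] P).eval α := by
  induction m with
  | zero => exact ⟨1, by simp⟩
  | succ m ih =>
    obtain ⟨b, hb⟩ := ih
    obtain ⟨c, hc⟩ := h.2 (m + i) (by omega)
    refine ⟨c * b, ?_⟩
    rw [← Function.iterate_add_apply] at hb ⊢
    rw [show m + 1 + i = m + i + 1 by omega, map_mul, mul_assoc, ← hb]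
    linear_combination η ^ m * hc

theorem CohCh.ext {P : C[X]} {n j : ℕ} {α η : C} (h : CohCh A P n (j + 1) α η)
    (h1 : IsUnit ((derivative^[j] P).eval α))
    (h2 : ∃ b : A, η * (derivative^[j + 1] P).eval α =
      algebraMap A C b * (derivative^[j] P).eval α) : CohCh A P n j α η := by
  refine ⟨fun i hi hn => ?_, fun i hi => ?_⟩
  · rcases hi.eq_or_lt with rfl | hi
    · exact h1
    · exact h.1 i hi hn
  · rcases hi.eq_or_lt with rfl | hi
    · exact h2
    · exact h.2 i hi

variable [IsLocalRing A]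

theorem coh_one_add {s : A} (hs : s ∈ maximalIdeal A) (y : A) : IsUnit (1 + s * y) := by
  have := isUnit_one_sub_self_of_mem_nonunits (-(s * y))
    ((maximalIdeal A).neg_mem (Ideal.mul_mem_right _ _ hs))
  simpa using this

theorem CohCh.move {P : C[X]} {n j : ℕ} (hn : IsUnit ((n.factorial : ℕ) : A))
    (hP : P.natDegree ≤ n) {α η : C} (h : CohCh A P n j α η) {s : A} (hs : s ∈ maximalIdeal A)
    (i : ℕ) (hi : j ≤ i) : ∃ u : Aˣ, (derivative^[i] P).eval (α + η * algebraMap A C s) =
      algebraMap A C u * (derivative^[i] P).eval α := by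
  obtain ⟨T, hT⟩ := coh_taylor hn (derivative^[i] P)
    ((natDegree_iterate_derivative P i).trans (by omega)) α η ((derivative^[i] P).eval α)
    fun m => h.pow i hi (m + 2)
  obtain ⟨b, hb⟩ := h.2 i hi
  rw [Function.iterate_succ_apply'] at hb
  refine ⟨(coh_one_add hs (b + s * T.eval s)).unit, ?_⟩
  rw [hT s, hb, IsUnit.unit_spec]
  simp only [map_mul, map_add, map_pow, map_one]
  ring

theorem coh_step [Nontrivial E] (ev : C →+* E)
    (hens : ∀ T : A[X], T.coeff 0 ∈ maximalIdeal A → T.coeff 1 = 1 →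
      ∃ s ∈ maximalIdeal A, T.eval s = 0)
    (tot : ∀ x y : C, IsUnit x → IsUnit y → (∃ a : A, y = algebraMap A C a * x) ∨
      ∃ a ∈ maximalIdeal A, x = algebraMap A C a * y)
    (lift : ∀ (a : E) (c : C), ev c ≠ a → ∃ η, IsUnit η ∧ ev (c + η) = a)
    {n : ℕ} (hn : IsUnit ((n.factorial : ℕ) : A)) {P : C[X]} (hP : P.natDegree ≤ n)
    (G : C → Prop) (hG : ∀ c, G c → ∀ j, (derivative^[j] P).eval c = 0 ∨
      IsUnit ((derivative^[j] P).eval c))
    {j : ℕ} (hj : j < n) (hG' : ∀ c, (derivative^[j] P).eval c = 0 → G c) {a : E} {c η : C}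
    (hc : G c) (hη : IsUnit η) (ha : ev (c + η) = a) (h : CohCh A P n (j + 1) (c + η) η) :
    ∃ c, G c ∧ (ev c = a ∨ ∃ η, IsUnit η ∧ ev (c + η) = a ∧ CohCh A P n j (c + η) η) := by
  set α := c + η with hα
  set z := η * (derivative^[j + 1] P).eval α with hz
  have hzu : IsUnit z := hη.mul (h.1 _ le_rfl hj)
  obtain ⟨T, hT⟩ := coh_taylor hn (derivative^[j] P)
    ((natDegree_iterate_derivative P j).trans (by omega)) α η z fun m => by
      obtain ⟨b, hb⟩ := h.pow (j + 1) le_rfl (m + 1)
      refine ⟨b, ?_⟩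
      rw [← Function.iterate_add_apply] at hb ⊢
      rw [show m + 2 + j = m + 1 + (j + 1) by omega, hz]
      linear_combination η * hb
  rw [← Function.iterate_succ_apply' derivative, ← hz] at hT
  have hc1 : (derivative^[j] P).eval c =
      (derivative^[j] P).eval α - algebraMap A C (1 - T.eval (-1)) * z := by
    have := hT (-1)
    rw [show α + η * algebraMap A C (-1) = c by rw [hα]; simp] at this
    rw [this]; simp only [map_mul, map_sub, map_pow, map_neg, map_one]; ring
  have hA : (∃ b : A, (derivative^[j] P).eval c = algebraMap A C b * z) ∨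
      (IsUnit ((derivative^[j] P).eval c) ∧
        ∃ b ∈ maximalIdeal A, z = algebraMap A C b * (derivative^[j] P).eval c) := by
    rcases hG c hc j with h0 | h0
    · exact Or.inl ⟨0, by simp [h0]⟩
    · exact (tot _ _ hzu h0).imp id fun h => ⟨h0, h⟩
  rcases hA with ⟨b, hb⟩ | ⟨h0, b, hbm, hb⟩
  · have ht : (derivative^[j] P).eval α = algebraMap A C (b + (1 - T.eval (-1))) * z := by
      rw [map_add]; linear_combination hb - hc1
    set t0 := b + (1 - T.eval (-1))
    by_cases hu : IsUnit t0
    · obtain ⟨r, hr⟩ := hu.exists_left_inv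
      refine ⟨c, hc, Or.inr ⟨η, hη, ha, h.ext (ht ▸ (hu.map _).mul hzu) ⟨r, ?_⟩⟩⟩
      rw [ht, ← mul_assoc, ← map_mul, hr, map_one, one_mul]
    · obtain ⟨s0, hs0, hs⟩ := hens (Polynomial.C t0 + X + X ^ 2 * T)
        (by simpa [coeff_X_pow_mul'] using hu) (by simp [coeff_X_pow_mul'])
      simp only [eval_add, eval_C, eval_X, eval_mul, eval_pow] at hs
      have hev : ∀ s : A, (derivative^[j] P).eval (α + η * algebraMap A C s) =
          z * algebraMap A C (t0 + s + s ^ 2 * T.eval s) := fun s => by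
        rw [hT s, ht]; simp only [map_mul, map_add, map_pow]; ring
      have hroot : (derivative^[j] P).eval (α + η * algebraMap A C s0) = 0 := by
        rw [hev, hs, map_zero, mul_zero]
      refine ⟨_, hG' _ hroot, ?_⟩
      by_cases he : ev (α + η * algebraMap A C s0) = a
      · exact Or.inl he
      obtain ⟨η', hη', ha'⟩ := lift a _ he
      obtain ⟨y, hym, hy⟩ : ∃ y ∈ maximalIdeal A, η' = algebraMap A C y * η := by
        refine (tot η' η hη' hη).resolve_left ?_
        rintro ⟨r, hr⟩
        have h1 : ev (η * algebraMap A C s0 + η') = 0 := by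
          rw [← ha, add_assoc, map_add] at ha'
          exact add_eq_left.1 ha'
        have h2 : η * algebraMap A C s0 + η' = η' * algebraMap A C (1 + s0 * r) := by
          rw [hr]; simp only [map_mul, map_add, map_one]; ring
        rw [h2] at h1
        exact ((hη'.mul ((coh_one_add hs0 r).map _)).map ev).ne_zero h1
      refine Or.inr ⟨η', hη', ha', ?_⟩
      have hs1 : s0 + y ∈ maximalIdeal A := add_mem hs0 hym
      have e1 : α + η * algebraMap A C s0 + η' = α + η * algebraMap A C (s0 + y) := by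
        rw [hy, map_add]; ring
      rw [e1]
      have mv := h.move hn hP hs1
      have h' : CohCh A P n (j + 1) (α + η * algebraMap A C (s0 + y)) η' := by
        refine ⟨fun i hi hin => ?_, fun i hi => ?_⟩
        · obtain ⟨u, hu⟩ := mv i hi
          rw [hu]; exact (u.isUnit.map _).mul (h.1 i hi hin)
        · obtain ⟨u, hu⟩ := mv i hi
          obtain ⟨u', hu'⟩ := mv (i + 1) (by omega)
          obtain ⟨b, hb⟩ := h.2 i hi
          refine ⟨y * u' * b * (u⁻¹ : Aˣ), ?_⟩
          have : algebraMap A C (u⁻¹ : Aˣ) * algebraMap A C u = 1 := by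
            rw [← map_mul, Units.inv_mul, map_one]
          rw [hu, hu', hy]
          simp only [map_mul]
          linear_combination algebraMap A C y * algebraMap A C u' * hb -
            algebraMap A C y * algebraMap A C u' * algebraMap A C b *
              (derivative^[i] P).eval α * this
      obtain ⟨k, hk⟩ := sub_dvd_eval_sub (s0 + y) s0 T
      obtain ⟨v, hv⟩ : IsUnit (1 + ((s0 + y) * ((s0 + y) * k + T.eval s0) + s0 * T.eval s0)) := by
        have := coh_one_add (add_mem (Ideal.mul_mem_right ((s0 + y) * k + T.eval s0) _ hs1)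
          (Ideal.mul_mem_right (T.eval s0) _ hs0)) 1
        rwa [mul_one] at this
      have e2 : t0 + (s0 + y) + (s0 + y) ^ 2 * T.eval (s0 + y) = y * v := by
        rw [hv]; linear_combination hs + (s0 + y) ^ 2 * hk
      obtain ⟨u, hu⟩ := mv (j + 1) le_rfl
      have e3 : (derivative^[j] P).eval (α + η * algebraMap A C (s0 + y)) =
          η' * (derivative^[j + 1] P).eval α * algebraMap A C v := by
        rw [hev, e2, hz, hy, map_mul]; ring
      refine h'.ext ?_ ⟨u * (v⁻¹ : Aˣ), ?_⟩
      · rw [e3]; exact (hη'.mul (h.1 _ le_rfl hj)).mul (v.isUnit.map _)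
      · have : algebraMap A C (v⁻¹ : Aˣ) * algebraMap A C v = 1 := by
          rw [← map_mul, Units.inv_mul, map_one]
        rw [e3, hu, map_mul]
        linear_combination (-(η' * algebraMap A C u * (derivative^[j + 1] P).eval α)) * this
  · obtain ⟨v, hv⟩ := coh_one_add hbm (1 - T.eval (-1))
    have ht : (derivative^[j] P).eval α = algebraMap A C v * (derivative^[j] P).eval c := by
      rw [hv]; simp only [map_mul, map_add, map_one]
      linear_combination -hc1 + algebraMap A C (1 - T.eval (-1)) * hb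
    refine ⟨c, hc, Or.inr ⟨η, hη, ha, h.ext (ht ▸ (v.isUnit.map _).mul h0) ⟨b * (v⁻¹ : Aˣ), ?_⟩⟩⟩
    have : algebraMap A C (v⁻¹ : Aˣ) * algebraMap A C v = 1 := by
      rw [← map_mul, Units.inv_mul, map_one]
    rw [ht, map_mul]
    linear_combination hb - algebraMap A C b * (derivative^[j] P).eval c * this

theorem coh_main [Nontrivial E] (ev : C →+* E)
    (hens : ∀ T : A[X], T.coeff 0 ∈ maximalIdeal A → T.coeff 1 = 1 →
      ∃ s ∈ maximalIdeal A, T.eval s = 0)
    (tot : ∀ x y : C, IsUnit x → IsUnit y → (∃ a : A, y = algebraMap A C a * x) ∨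
      ∃ a ∈ maximalIdeal A, x = algebraMap A C a * y)
    (lift : ∀ (a : E) (c : C), ev c ≠ a → ∃ η, IsUnit η ∧ ev (c + η) = a)
    {n : ℕ} (hn : IsUnit ((n.factorial : ℕ) : A)) {P : C[X]} (hP : P.natDegree ≤ n)
    (hl : IsUnit (P.coeff n))
    (hG : ∀ c, (c = 0 ∨ ∃ i < n, (derivative^[i] P).eval c = 0) →
      ∀ j, (derivative^[j] P).eval c = 0 ∨ IsUnit ((derivative^[j] P).eval c))
    (a : E) (ha : (P.map ev).eval a ≠ 0) : ∃ α, ev α = a ∧ IsUnit (P.eval α) := by
  have key : ∀ k ≤ n, ∃ c, (c = 0 ∨ ∃ i < n, (derivative^[i] P).eval c = 0) ∧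
      (ev c = a ∨ ∃ η, IsUnit η ∧ ev (c + η) = a ∧ CohCh A P n (n - k) (c + η) η) := by
    intro k
    induction k with
    | zero =>
      intro _
      refine ⟨0, Or.inl rfl, ?_⟩
      by_cases h0 : ev 0 = a
      · exact Or.inl h0
      obtain ⟨η, hη, he⟩ := lift a 0 h0
      refine Or.inr ⟨η, hη, he, fun i hi hi' => ?_, fun i hi => ⟨0, ?_⟩⟩
      · obtain rfl : i = n := by omega
        rw [eq_C_of_natDegree_le_zero ((natDegree_iterate_derivative P i).trans (by omega)),
          eval_C, coeff_iterate_derivative, zero_add, Nat.descFactorial_self, nsmul_eq_mul]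
        exact (map_natCast (algebraMap A C) _ ▸ hn.map (algebraMap A C)).mul hl
      · rw [iterate_derivative_eq_zero (by omega)]; simp
    | succ k ih =>
      intro hk
      obtain ⟨c, hc, h | ⟨η, hη, he, h⟩⟩ := ih (by omega)
      · exact ⟨c, hc, Or.inl h⟩
      · rw [show n - k = n - (k + 1) + 1 by omega] at h
        exact coh_step ev hens tot lift hn hP _ hG (by omega)
          (fun c hc => Or.inr ⟨_, by omega, hc⟩) hc hη he h
  obtain ⟨c, hc, h | ⟨η, -, he, h⟩⟩ := key n le_rfl
  · refine ⟨c, h, (hG c hc 0).resolve_left fun h0 => ha ?_⟩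
    rw [← h, eval_map, eval₂_at_apply]
    rw [Function.iterate_zero_apply] at h0
    rw [h0, map_zero]
  · exact ⟨_, he, h.1 0 (by omega) (by omega)⟩

end Coh

end Pool.Agent.P.MP_898f40_nt.U
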