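import Pool.Agent.P.MP_898f40_nt.Lp.VCoh

/-! Block V: power series over a complete discrete valuation ring as a model for `coh_main`. -/

set_option linter.unusedSectionVars false

namespace Pool.Agent.P.MP_898f40_nt.U

open Polynomial IsLocalRing

theorem ps_hensel {R : Type} [CommRing R] (I : Ideal R) [IsAdicComplete I R] (T : R[X])
    (h0 : T.coeff 0 ∈ I) (h1 : IsUnit (T.coeff 1)) : ∃ s ∈ I, T.eval s = 0 := by
  obtain ⟨r, hr⟩ := h1.exists_left_inv
  obtain ⟨T2, hT⟩ : ∃ T2 : R[X], ∀ s, T.eval s = T.coeff 0 + T.coeff 1 * s + s ^ 2 * T2.eval s := by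
    refine ⟨T.divX.divX, fun s => ?_⟩
    conv_lhs => rw [← divX_mul_X_add T, ← divX_mul_X_add T.divX]
    simp only [eval_add, eval_mul, eval_X, eval_C, coeff_divX, zero_add]
    ring
  let c : ℕ → R := fun n => Nat.recOn n 0 fun _ b => b - r * T.eval b
  have hc : ∀ n, c (n + 1) = c n - r * T.eval (c n) := fun n => rfl
  have key : ∀ n, c n ∈ I ∧ T.eval (c n) ∈ I ^ (n + 1) := by
    intro n
    induction n with
    | zero => exact ⟨I.zero_mem, by
        rw [zero_add, pow_one, show c 0 = 0 from rfl, ← coeff_zero_eq_eval_zero]; exact h0⟩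
    | succ n ih =>
      have a : c (n + 1) ∈ I := by
        rw [hc]
        exact I.sub_mem ih.1 (I.mul_mem_left _ (Ideal.pow_le_self (by omega) ih.2))
      refine ⟨a, ?_⟩
      obtain ⟨k, hk⟩ := sub_dvd_eval_sub (c (n + 1)) (c n) T2
      have e : T.eval (c (n + 1)) = T.eval (c n) *
          (-r * (c (n + 1) * (c (n + 1) * k + T2.eval (c n)) + c n * T2.eval (c n))) := by
        have h3 := hc n
        linear_combination hT (c (n + 1)) - hT (c n) + c (n + 1) ^ 2 * hk +
          (T.coeff 1 + (c (n + 1) * (c (n + 1) * k + T2.eval (c n)) + c n * T2.eval (c n))) * h3 -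
          T.eval (c n) * hr
      rw [e, pow_succ]
      exact Ideal.mul_mem_mul ih.2 (I.mul_mem_left _
        (I.add_mem (I.mul_mem_right _ a) (I.mul_mem_right _ ih.1)))
  have aux : ∀ m n, m ≤ n → c m ≡ c n [SMOD (I ^ m • ⊤ : Ideal R)] := by
    intro m n hmn
    rw [← Ideal.one_eq_top, Ideal.smul_eq_mul, mul_one]
    induction n, hmn using Nat.le_induction with
    | base => rfl
    | succ n hmn ih =>
      refine ih.trans (SModEq.sub_mem.2 ?_)
      rw [hc, sub_sub_cancel]
      exact Ideal.mul_mem_left _ _ (Ideal.pow_le_pow_right (by omega) (key n).2)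
  obtain ⟨a, ha⟩ := IsPrecomplete.prec' c (aux _ _)
  simp only [← Ideal.one_eq_top, Ideal.smul_eq_mul, mul_one] at ha
  refine ⟨a, ?_, IsHausdorff.haus' (I := I) _ fun n => ?_⟩
  · have := SModEq.sub_mem.1 (ha 1)
    rw [pow_one] at this
    simpa using I.sub_mem (key 1).1 this
  · rw [← Ideal.one_eq_top, Ideal.smul_eq_mul, mul_one]
    refine ((ha n).symm.eval T).trans (SModEq.zero.2 ?_)
    exact Ideal.pow_le_pow_right le_self_add (key n).2

section PS

variable {O : Type} [CommRing O] [IsDomain O] [IsDiscreteValuationRing O]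
  [IsAdicComplete (maximalIdeal O) O]

theorem ps_mem_max {f : PowerSeries O} :
    f ∈ maximalIdeal (PowerSeries O) ↔ PowerSeries.constantCoeff f ∈ maximalIdeal O := by
  rw [mem_maximalIdeal, mem_maximalIdeal, mem_nonunits_iff, mem_nonunits_iff,
    PowerSeries.isUnit_iff_constantCoeff]

theorem ps_hens (T : (PowerSeries O)[X]) (h0 : T.coeff 0 ∈ maximalIdeal (PowerSeries O))
    (h1 : T.coeff 1 = 1) : ∃ s ∈ maximalIdeal (PowerSeries O), T.eval s = 0 := by
  obtain ⟨s0, hs0, hs⟩ := ps_hensel (maximalIdeal O) (T.map PowerSeries.constantCoeff)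
    (by rw [coeff_map]; exact ps_mem_max.1 h0) (by rw [coeff_map, h1, map_one]; exact isUnit_one)
  have hm : PowerSeries.C s0 ∈ maximalIdeal (PowerSeries O) := ps_mem_max.2 (by simpa using hs0)
  obtain ⟨s, hs1, hs2⟩ := ps_hensel (Ideal.span {(PowerSeries.X : PowerSeries O)})
    (taylor (PowerSeries.C s0) T)
    (by
      rw [taylor_coeff_zero, Ideal.mem_span_singleton, PowerSeries.X_dvd_iff, ← eval₂_at_apply,
        ← eval_map]
      simpa using hs)
    (by
      rw [taylor_coeff_one]
      obtain ⟨k, hk⟩ := sub_dvd_eval_sub (PowerSeries.C s0) 0 T.derivative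
      rw [← coeff_zero_eq_eval_zero, coeff_derivative, zero_add, h1] at hk
      have := coh_one_add hm k
      rwa [show 1 + PowerSeries.C s0 * k = T.derivative.eval (PowerSeries.C s0) by
        simp only [Nat.cast_zero, zero_add] at hk; linear_combination -hk] at this)
  refine ⟨s + PowerSeries.C s0, add_mem (ps_mem_max.2 ?_) hm, by rwa [taylor_eval] at hs2⟩
  rw [PowerSeries.X_dvd_iff.1 (Ideal.mem_span_singleton.1 hs1)]
  exact zero_mem _

theorem ps_ev {π : O} (hπ : Irreducible π) : ∃ ev : PowerSeries O →+* O,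
    ∀ g : O[X], ev (g : PowerSeries O) = g.eval π := by
  have H : (X - C π : O[X]).IsDistinguishedAt (maximalIdeal O) := by
    refine ⟨⟨fun {n} hn => ?_⟩, monic_X_sub_C π⟩
    rw [natDegree_X_sub_C] at hn
    obtain rfl : n = 0 := by omega
    simpa using hπ.not_isUnit
  refine ⟨((quotientSpanXSubCAlgEquiv π).toRingEquiv.toRingHom.comp
    H.algEquivQuotient.symm.toRingEquiv.toRingHom).comp (Ideal.Quotient.mk _), fun g => ?_⟩
  have : H.algEquivQuotient.symm (Ideal.Quotient.mk _ (g : PowerSeries O)) =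
      Ideal.Quotient.mk _ g := by
    rw [AlgEquiv.symm_apply_eq]
    simp [Polynomial.IsDistinguishedAt.algEquivQuotient_apply]
  change quotientSpanXSubCAlgEquiv π (H.algEquivQuotient.symm (Ideal.Quotient.mk _ _)) = _
  rw [this, quotientSpanXSubCAlgEquiv_mk]

variable {C : Type} [CommRing C] [Algebra (PowerSeries O) C]
  [IsLocalization.Away (PowerSeries.X : PowerSeries O) C]

theorem ps_inj : Function.Injective (algebraMap (PowerSeries O) C) :=
  IsLocalization.injective C (powers_le_nonZeroDivisors_of_noZeroDivisors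
    (PowerSeries.X_ne_zero (R := O)))

theorem ps_unit {x : C} (hx : IsUnit x) : ∃ (i k : ℕ) (u : (PowerSeries O)ˣ),
    x * algebraMap (PowerSeries O) C ((PowerSeries.X : PowerSeries O) ^ i) =
      algebraMap (PowerSeries O) C ((PowerSeries.X : PowerSeries O) ^ k * u) := by
  obtain ⟨y, hy⟩ := hx.exists_right_inv
  obtain ⟨i, f, hf⟩ := IsLocalization.Away.surj (PowerSeries.X : PowerSeries O) x
  obtain ⟨j, g, hg⟩ := IsLocalization.Away.surj (PowerSeries.X : PowerSeries O) y
  have e : PowerSeries.X ^ (i + j) = f * g := ps_inj (C := C) (by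
    rw [map_mul, ← hf, ← hg, map_pow, pow_add]
    linear_combination (-(algebraMap (PowerSeries O) C PowerSeries.X ^ i *
      algebraMap (PowerSeries O) C PowerSeries.X ^ j)) * hy)
  obtain ⟨k, -, u, hu⟩ := (dvd_prime_pow PowerSeries.X_prime (i + j)).1 ⟨g, e⟩
  refine ⟨i, k, u⁻¹, ?_⟩
  rw [map_pow, hf, ← hu, mul_assoc, Units.mul_inv, mul_one]

theorem ps_tot (x y : C) (hx : IsUnit x) (hy : IsUnit y) :
    (∃ a : PowerSeries O, y = algebraMap (PowerSeries O) C a * x) ∨
      ∃ a ∈ maximalIdeal (PowerSeries O), x = algebraMap (PowerSeries O) C a * y := by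
  obtain ⟨x', hx'⟩ := hx.exists_right_inv
  obtain ⟨i, k, u, h⟩ := ps_unit (O := O) (hy.mul (IsUnit.of_mul_eq_one_right _ hx'))
  have hX : IsUnit (algebraMap (PowerSeries O) C PowerSeries.X) :=
    IsLocalization.Away.algebraMap_isUnit _
  rcases le_or_gt i k with hik | hik
  · obtain ⟨m, rfl⟩ := Nat.exists_eq_add_of_le hik
    refine Or.inl ⟨(PowerSeries.X : PowerSeries O) ^ m * u, (hX.pow i).mul_left_cancel ?_⟩
    simp only [map_mul, map_pow, pow_add] at h ⊢
    linear_combination x * h - (algebraMap (PowerSeries O) C PowerSeries.X ^ i * y) * hx'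
  · obtain ⟨m, rfl⟩ := Nat.exists_eq_add_of_lt hik
    refine Or.inr ⟨PowerSeries.X * (PowerSeries.X ^ m * ((u⁻¹ : (PowerSeries O)ˣ) : PowerSeries O)),
      Ideal.mul_mem_right _ _ (ps_mem_max.2 (by simp)), (hX.pow k).mul_left_cancel ?_⟩
    have hu : algebraMap (PowerSeries O) C u * algebraMap (PowerSeries O) C (u⁻¹ : (PowerSeries O)ˣ)
        = 1 := by rw [← map_mul, Units.mul_inv, map_one]
    simp only [map_mul, map_pow, pow_add, pow_one] at h ⊢
    linear_combination (-(x * algebraMap (PowerSeries O) C (u⁻¹ : (PowerSeries O)ˣ))) * h -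
      (x * algebraMap (PowerSeries O) C PowerSeries.X ^ k) * hu +
      (y * algebraMap (PowerSeries O) C (u⁻¹ : (PowerSeries O)ˣ) *
        (algebraMap (PowerSeries O) C PowerSeries.X ^ k *
        algebraMap (PowerSeries O) C PowerSeries.X ^ m *
        algebraMap (PowerSeries O) C PowerSeries.X)) * hx'

variable {E : Type} [Field E] [Algebra O E] [IsFractionRing O E]

theorem ps_lift {π : O} (hπ : Irreducible π) (ev : C →+* E)
    (hev : ∀ g : O[X], ev (algebraMap (PowerSeries O) C (g : PowerSeries O)) =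
      algebraMap O E (g.eval π)) (a : E) (c : C) (h : ev c ≠ a) :
    ∃ η, IsUnit η ∧ ev (c + η) = a := by
  have hX : IsUnit (algebraMap (PowerSeries O) C PowerSeries.X) :=
    IsLocalization.Away.algebraMap_isUnit _
  have key : ∀ r : O, r ≠ 0 → ∃ η : C, IsUnit η ∧ ev η = algebraMap O E r := by
    intro r hr
    obtain ⟨k, u, rfl⟩ := IsDiscreteValuationRing.eq_unit_mul_pow_irreducible hr hπ
    refine ⟨algebraMap (PowerSeries O) C ((Polynomial.C (u : O) * X ^ k : O[X]) : PowerSeries O),
      ?_, by rw [hev]; simp⟩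
    rw [Polynomial.coe_mul, Polynomial.coe_pow, Polynomial.coe_X, Polynomial.coe_C, map_mul,
      map_pow]
    exact ((u.isUnit.map PowerSeries.C).map _).mul (hX.pow k)
  obtain ⟨r, s, hs, e⟩ := IsFractionRing.div_surjective (A := O) (a - ev c)
  have hs0 : s ≠ 0 := nonZeroDivisors.ne_zero hs
  have hr0 : r ≠ 0 := by
    rintro rfl
    rw [map_zero, zero_div, eq_comm, sub_eq_zero] at e
    exact h e.symm
  obtain ⟨η1, h1, e1⟩ := key r hr0
  obtain ⟨η2, h2, e2⟩ := key s hs0
  obtain ⟨y, hy⟩ := h2.exists_right_inv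
  refine ⟨η1 * y, h1.mul (IsUnit.of_mul_eq_one_right _ hy), ?_⟩
  have e3 : ev y = (algebraMap O E s)⁻¹ := by
    rw [← e2]; exact eq_inv_of_mul_eq_one_right (by rw [← map_mul, hy, map_one])
  rw [map_add, map_mul, e1, e3, ← div_eq_mul_inv, e, add_sub_cancel]

end PS

end Pool.Agent.P.MP_898f40_nt.U
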